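import Pool.Agent.W818.TD.Main

/-!
# The half-plane self-avoiding walk on the hexagonal grid is not thin: a scale-invariant estimate

`HexG`: the hexagonal grid with edge length one and a vertex at `0`; `rot u Λ`: the grid `Λ`
multiplied by `u`; `PW Λ r n`: the self-avoiding walks with `n` steps of length `r` in the grid `Λ`,
starting at `0` and staying in the closed upper half-plane (a walk is continued by its last point).
These are defined in `Pool/Agent/H976R3/HPL/Plane.lean`. `Thin H1 H2 w` (in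
`Pool/Agent/W818/TD/Slab.lean`) is the set of the sequences whose points with imaginary part in
`[H1, H2]` lie in a vertical strip of width `w`.
-/

set_option autoImplicit false

namespace Pool.Agent.Results.MP_df1d0b_pr.TubeDecay

open Filter Topology MeasureTheory Pool.Agent.H976R3.HPL Pool.Agent.W818.TD

/-- For the hexagonal grid of edge length `‖u‖` with a vertex at `0` and an edge at `0`
perpendicular to the real line, the infinite half-plane self-avoiding walk (the weak limit `μ` of the
uniform measures on `n`-step half-plane walks) satisfies: the vertices of the walk at heights in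
`[H1, H2]` lie in a strip of width `w` with probability at most `16 * 2 ^ (-(H2 - H1) / (24 w))`,
for all `0 ≤ H1`, all `H2` and all `w ≥ ‖u‖`. -/
theorem result (u : ℂ) (hu : u ≠ 0) (hv : ∃ z ∈ rot u HexG, ‖z‖ = ‖u‖ ∧ z.re = 0) :
    ∃ μ : Measure (ℕ → ℂ), IsProbabilityMeasure μ ∧
      (∀ᵐ γ ∂μ, γ 0 = 0 ∧ (∀ i, γ i ∈ rot u HexG ∧ 0 ≤ (γ i).im) ∧
        (∀ i, ‖γ (i + 1) - γ i‖ = ‖u‖) ∧ Function.Injective γ) ∧
      (∀ F : BoundedContinuousFunction (ℕ → ℂ) ℝ,
        Tendsto (fun n => (∑ᶠ γ ∈ PW (rot u HexG) ‖u‖ n, F γ) /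
          ((PW (rot u HexG) ‖u‖ n).ncard : ℝ)) atTop (𝓝 (∫ γ, F γ ∂μ))) ∧
      ∀ H1 H2 w : ℝ, 0 ≤ H1 → ‖u‖ ≤ w →
        μ (Thin H1 H2 w) ≤ ENNReal.ofReal (16 * (2 : ℝ) ^ (-((H2 - H1) / (24 * w)))) :=
  main_vert u hu hv

end Pool.Agent.Results.MP_df1d0b_pr.TubeDecay
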