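import Pool.Agent.W387.SX

/-!
The uniform `n`-step half-plane self-avoiding walk on `ℤ²` stays in the wedge `|x| ≤ η y` with
probability at least `exp (- (K / η) (log n)^4)`, uniformly in `η ≤ 1`.
-/

set_option autoImplicit false

namespace Pool.Agent.Results.MP_df1d0b_pr.WedgeLower

/-- The `n`-step self-avoiding walks on `ℤ²` which start at the origin and stay in the closed upper
half-plane. -/
def walks (n : ℕ) : Set (Fin (n + 1) → ℤ × ℤ) :=
  {w | w 0 = 0 ∧ Function.Injective w ∧ (∀ i : Fin n,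
    |(w i.castSucc).1 - (w i.succ).1| + |(w i.castSucc).2 - (w i.succ).2| = 1) ∧
    ∀ i, 0 ≤ (w i).2}

/-- The probability of the event `E` under the uniform law on the `n`-step half-plane
self-avoiding walks. -/
noncomputable def prob (n : ℕ) (E : (Fin (n + 1) → ℤ × ℤ) → Prop) : ℝ :=
  ({w | w ∈ walks n ∧ E w}.ncard : ℝ) / ((walks n).ncard : ℝ)

/-- **Theorem.** There is `K` such that for every `0 < η ≤ 1` and every `n ≥ 2` the uniform
`n`-step half-plane self-avoiding walk `w` on `ℤ²` stays in the wedge `|x| ≤ η y` with probability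
at least `exp (- (K / η) (log n)^4)`. -/
theorem result : ∃ K : ℝ, ∀ η : ℝ, 0 < η → η ≤ 1 → ∀ n : ℕ, 2 ≤ n →
    Real.exp (-(K / η * Real.log n ^ 4)) ≤
      prob n (fun w => ∀ i, |((w i).1 : ℝ)| ≤ η * ((w i).2 : ℝ)) := by
  obtain ⟨K, hK⟩ := Pool.Agent.W387.SX.wedge_final
  refine ⟨K, fun η hη hη1 n hn => (hK η hη hη1 n hn).trans ?_⟩
  have hfin := Pool.Agent.H122R3.SX.walks_finite n
  have hsub : walks n ⊆ Pool.Agent.H122R3.SX.walks n := fun w hw => ⟨hw.1, hw.2.1, hw.2.2.1⟩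
  have heq : {w | w ∈ Pool.Agent.H122R3.SX.walks n ∧ ∀ i, |((w i).1 : ℝ)| ≤ η * ((w i).2 : ℝ)} =
      {w | w ∈ walks n ∧ ∀ i, |((w i).1 : ℝ)| ≤ η * ((w i).2 : ℝ)} := by
    ext w
    constructor
    · rintro ⟨⟨h0, h1, h2⟩, h3⟩
      refine ⟨⟨h0, h1, h2, fun i => ?_⟩, h3⟩
      have h4 := (abs_nonneg _).trans (h3 i)
      have h5 : (0 : ℝ) ≤ ((w i).2 : ℝ) := nonneg_of_mul_nonneg_right h4 hη
      exact_mod_cast h5
    · rintro ⟨hw, h3⟩
      exact ⟨hsub hw, h3⟩
  unfold prob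
  rw [heq]
  have hne : (walks n).Nonempty := by
    refine ⟨fun i => (0, ((i : ℕ) : ℤ)), rfl, fun a b hab => ?_, fun i => ?_, fun i => ?_⟩
    · have h1 : ((a : ℕ) : ℤ) = ((b : ℕ) : ℤ) := congrArg Prod.snd hab
      exact Fin.ext (by exact_mod_cast h1)
    · simp
    · simp
  have hpos : (0 : ℝ) < ((walks n).ncard : ℝ) := by
    exact_mod_cast (Set.ncard_pos (hfin.subset hsub)).2 hne
  refine div_le_div_of_nonneg_left (Nat.cast_nonneg _) hpos ?_
  exact_mod_cast Set.ncard_le_ncard hsub hfin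

end Pool.Agent.Results.MP_df1d0b_pr.WedgeLower
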